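import Mathlib

/-!
# Far-from-far graphs: the dual problem need not reduce to tolerant testing

The property `Pi` says that the number of edges lies within `2` of one of the numbers
`M / 2 ^ j`, where `M = v.choose 2`. With `delta = M / 2 ^ k` the numbers strictly between
`M / 2 ^ (k - 1) + 2` and `M / 2 ^ (k - 2) - 2` form a gap of length just below `2 * delta`. A graph
whose number of edges is in the middle of this gap is at distance at least `delta - 3` from the
property, while every graph at distance less than `delta` from it is at distance less than `delta`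
from the property.
-/

namespace Pool.Agent.Results.MP_cccbef_lc.DualNotTolerant

/-- The distance of two graphs: the number of pairs that are an edge of exactly one of them. -/
noncomputable def edgeDist {v : ℕ} (G H : SimpleGraph (Fin v)) : ℕ :=
  (symmDiff G.edgeSet H.edgeSet).ncard

/-- The graphs which are `δ`-far from `S`: at distance at least `δ` from every member of `S`. -/
def Far {v : ℕ} (δ : ℝ) (S : Set (SimpleGraph (Fin v))) : Set (SimpleGraph (Fin v)) :=
  {G | ∀ H ∈ S, δ ≤ (edgeDist G H : ℝ)}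

/-- A graph property: for every `v` a set of graphs on `v` vertices closed under isomorphism. -/
def IsGraphProperty (P : ∀ v : ℕ, Set (SimpleGraph (Fin v))) : Prop :=
  ∀ (v : ℕ) (G H : SimpleGraph (Fin v)), G ∈ P v → Nonempty (G ≃g H) → H ∈ P v

/-- The dual problem of `P` reduces to tolerant testing: for some `ε₀ > 0` and every
`ε ∈ (0, ε₀]` there are `α < 1` and `v₀` such that for all `v ≥ v₀`, with `δ = ε * (v.choose 2)`,
every graph which is `δ`-far from the graphs that are `δ`-far from `P v` is at distance at most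
`α * δ` from a member of `P v`. -/
def DualReducesToTolerant (P : ∀ v : ℕ, Set (SimpleGraph (Fin v))) : Prop :=
  ∃ ε₀ > (0 : ℝ), ∀ ε : ℝ, 0 < ε → ε ≤ ε₀ → ∃ α : ℝ, α < 1 ∧ ∃ v₀ : ℕ, ∀ v ≥ v₀,
    ∀ G ∈ Far (ε * (v.choose 2 : ℕ)) (Far (ε * (v.choose 2 : ℕ)) (P v)),
      ∃ H ∈ P v, (edgeDist G H : ℝ) ≤ α * (ε * (v.choose 2 : ℕ))

/-! ### Edge counts -/

lemma card_edgeSet_le {v : ℕ} (G : SimpleGraph (Fin v)) : G.edgeSet.ncard ≤ v.choose 2 := by
  classical
  have h := G.card_edgeFinset_le_card_choose_two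
  rw [Fintype.card_fin] at h
  rwa [Set.ncard_eq_toFinset_card', ← SimpleGraph.edgeFinset]

lemma abs_le_edgeDist {v : ℕ} (G H : SimpleGraph (Fin v)) :
    |(G.edgeSet.ncard : ℝ) - H.edgeSet.ncard| ≤ edgeDist G H := by
  have key : ∀ A B : Set (Sym2 (Fin v)), (A.ncard : ℝ) ≤ B.ncard + (symmDiff A B).ncard := by
    intro A B
    have h1 : A ⊆ B ∪ symmDiff A B := by
      intro x hx
      by_cases hb : x ∈ B
      · exact Or.inl hb
      · exact Or.inr (Or.inl ⟨hx, hb⟩)
    have h2 := (Set.ncard_le_ncard h1 (Set.toFinite _)).trans (Set.ncard_union_le _ _)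
    exact_mod_cast h2
  have h1 := key G.edgeSet H.edgeSet
  have h2 := key H.edgeSet G.edgeSet
  rw [symmDiff_comm] at h2
  rw [abs_le]
  unfold edgeDist
  constructor <;> linarith

/-- Every number of edges `r` can be reached from `G` by only adding or only removing edges. -/
lemma exists_edgeDist {v : ℕ} (G : SimpleGraph (Fin v)) (r : ℕ) (hr : r ≤ v.choose 2) :
    ∃ H : SimpleGraph (Fin v), H.edgeSet.ncard = r ∧
      (edgeDist G H : ℝ) = |(G.edgeSet.ncard : ℝ) - r| := by
  classical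
  set E : Finset (Sym2 (Fin v)) := G.edgeFinset with hE
  have hEset : G.edgeSet = (E : Set (Sym2 (Fin v))) := by simp [hE]
  set T : Finset (Sym2 (Fin v)) := (⊤ : SimpleGraph (Fin v)).edgeFinset with hT
  have hTcard : T.card = v.choose 2 := by
    rw [hT, SimpleGraph.card_edgeFinset_top_eq_card_choose_two, Fintype.card_fin]
  have hET : E ⊆ T := by
    rw [hE, hT]
    exact SimpleGraph.edgeFinset_mono le_top
  have hfrom : ∀ F : Finset (Sym2 (Fin v)), F ⊆ T →
      (SimpleGraph.fromEdgeSet (F : Set (Sym2 (Fin v)))).edgeSet = F := by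
    intro F hF
    rw [SimpleGraph.edgeSet_fromEdgeSet]
    ext x
    constructor
    · rintro ⟨h1, -⟩
      exact h1
    · intro h1
      refine ⟨h1, ?_⟩
      have h2 := hF (by simpa using h1)
      rw [hT, SimpleGraph.mem_edgeFinset] at h2
      have h3 := SimpleGraph.not_isDiag_of_mem_edgeSet _ h2
      simpa using h3
  have hEn : G.edgeSet.ncard = E.card := by rw [hEset, Set.ncard_coe_finset]
  rcases le_total r E.card with h | h
  · obtain ⟨F, hFE, hFc⟩ := Finset.exists_subset_card_eq h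
    refine ⟨SimpleGraph.fromEdgeSet (F : Set (Sym2 (Fin v))), ?_, ?_⟩
    · rw [hfrom F (hFE.trans hET), Set.ncard_coe_finset, hFc]
    · unfold edgeDist
      rw [hfrom F (hFE.trans hET), hEset]
      have h1 : symmDiff (E : Set (Sym2 (Fin v))) (F : Set (Sym2 (Fin v))) =
          ((E \ F : Finset _) : Set (Sym2 (Fin v))) := by
        rw [symmDiff_of_ge (by exact_mod_cast hFE), Finset.coe_sdiff]
      rw [h1, Set.ncard_coe_finset, Finset.card_sdiff_of_subset hFE, hFc, Set.ncard_coe_finset,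
        Nat.cast_sub h, abs_of_nonneg]
      have : (r : ℝ) ≤ E.card := by exact_mod_cast h
      linarith
  · obtain ⟨F, hEF, hFT, hFc⟩ := Finset.exists_subsuperset_card_eq hET h (by rw [hTcard]; exact hr)
    refine ⟨SimpleGraph.fromEdgeSet (F : Set (Sym2 (Fin v))), ?_, ?_⟩
    · rw [hfrom F hFT, Set.ncard_coe_finset, hFc]
    · unfold edgeDist
      rw [hfrom F hFT, hEset]
      have h1 : symmDiff (E : Set (Sym2 (Fin v))) (F : Set (Sym2 (Fin v))) =
          ((F \ E : Finset _) : Set (Sym2 (Fin v))) := by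
        rw [symmDiff_of_le (by exact_mod_cast hEF), Finset.coe_sdiff]
      rw [h1, Set.ncard_coe_finset, Finset.card_sdiff_of_subset hEF, hFc, Set.ncard_coe_finset,
        Nat.cast_sub h, abs_of_nonpos]
      · ring
      · have : (E.card : ℝ) ≤ r := by exact_mod_cast h
        linarith

/-! ### The property -/

/-- The property: the number of edges is within `2` of `M / 2 ^ j` for some `j`, where
`M = v.choose 2`. -/
def Pi (v : ℕ) : Set (SimpleGraph (Fin v)) :=
  {G | ∃ j : ℕ, |(G.edgeSet.ncard : ℝ) - (v.choose 2 : ℕ) / 2 ^ j| ≤ 2}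

lemma pi_isGraphProperty : IsGraphProperty Pi := by
  rintro v G H ⟨j, hj⟩ ⟨φ⟩
  refine ⟨j, ?_⟩
  have h : H.edgeSet.ncard = G.edgeSet.ncard := by
    rw [← Nat.card_coe_set_eq, ← Nat.card_coe_set_eq]
    exact Nat.card_congr φ.symm.mapEdgeSet
  rwa [h]

/-- No power `M / 2 ^ j` lies strictly between `2 δ` and `4 δ` when `δ = M / 2 ^ k`. -/
lemma gap {M : ℝ} (hM : 0 ≤ M) {k : ℕ} (hk : 2 ≤ k) (j : ℕ) :
    M / 2 ^ j ≤ 2 * (M / 2 ^ k) ∨ 4 * (M / 2 ^ k) ≤ M / 2 ^ j := by
  rcases le_or_gt (k - 1) j with h | h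
  · left
    have h1 : 2 * (M / 2 ^ k) = M / 2 ^ (k - 1) := by
      obtain ⟨l, rfl⟩ : ∃ l, k = l + 1 := ⟨k - 1, by omega⟩
      rw [Nat.add_sub_cancel, pow_succ]
      field_simp
    rw [h1]
    exact div_le_div_of_nonneg_left hM (by positivity) (pow_le_pow_right₀ (by norm_num) h)
  · right
    have h1 : 4 * (M / 2 ^ k) = M / 2 ^ (k - 2) := by
      obtain ⟨l, rfl⟩ : ∃ l, k = l + 2 := ⟨k - 2, by omega⟩
      rw [Nat.add_sub_cancel, pow_succ, pow_succ]
      field_simp
      ring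
    rw [h1]
    exact div_le_div_of_nonneg_left hM (by positivity)
      (pow_le_pow_right₀ (by norm_num) (by omega))

/-- The main estimate, for `δ = M / 2 ^ k ≥ 4`. -/
lemma main {v k : ℕ} (hk : 2 ≤ k) {δ : ℝ} (hδ : δ = (v.choose 2 : ℕ) / 2 ^ k) (h4 : 4 ≤ δ) :
    ∃ G ∈ Far δ (Far δ (Pi v)), ∀ H ∈ Pi v, δ - 3 ≤ (edgeDist G H : ℝ) := by
  have hM0 : (0 : ℝ) ≤ (v.choose 2 : ℕ) := Nat.cast_nonneg _
  have hM4 : 4 * δ ≤ (v.choose 2 : ℕ) := by
    rcases gap hM0 hk 0 with h | h
    · rw [pow_zero, div_one, ← hδ] at h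
      have h2 : (4 : ℝ) ≤ 2 ^ k := by
        calc (4 : ℝ) = 2 ^ 2 := by norm_num
          _ ≤ 2 ^ k := pow_le_pow_right₀ (by norm_num) hk
      have h3 : ((v.choose 2 : ℕ) : ℝ) = δ * 2 ^ k := by rw [hδ]; field_simp
      rw [h3]
      nlinarith
    · rw [pow_zero, div_one, ← hδ] at h
      exact h
  -- a number of edges in the middle of the gap
  set e : ℕ := ⌊3 * δ⌋₊ with he
  have he1 : (e : ℝ) ≤ 3 * δ := Nat.floor_le (by linarith)
  have he2 : 3 * δ < e + 1 := Nat.lt_floor_add_one _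
  have heM : e ≤ v.choose 2 := by
    have : (e : ℝ) ≤ (v.choose 2 : ℕ) := by linarith
    exact_mod_cast this
  obtain ⟨G, hG, -⟩ := exists_edgeDist (⊥ : SimpleGraph (Fin v)) e heM
  refine ⟨G, ?_, ?_⟩
  · -- every graph at distance less than `δ` from `G` is at distance less than `δ` from `Pi`
    intro K hK
    by_contra hlt
    push Not at hlt
    have h1 := abs_le_edgeDist G K
    rw [hG] at h1
    have h2 : |(e : ℝ) - K.edgeSet.ncard| < δ := lt_of_le_of_lt h1 hlt
    rw [abs_lt] at h2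
    set m : ℝ := (K.edgeSet.ncard : ℝ) with hm
    -- find an edge count in the property at distance less than `δ` from `m`
    have hfind : ∃ r : ℕ, r ≤ v.choose 2 ∧ (∃ j : ℕ, |(r : ℝ) - (v.choose 2 : ℕ) / 2 ^ j| ≤ 2) ∧
        |m - r| < δ := by
      rcases le_total m (3 * δ) with h | h
      · -- use `⌊2 δ + 2⌋`
        refine ⟨⌊2 * δ + 2⌋₊, ?_, ⟨k - 1, ?_⟩, ?_⟩
        · have h5 : ((⌊2 * δ + 2⌋₊ : ℕ) : ℝ) ≤ 2 * δ + 2 := Nat.floor_le (by linarith)
          have h6 : ((⌊2 * δ + 2⌋₊ : ℕ) : ℝ) ≤ (v.choose 2 : ℕ) := by linarith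
          exact_mod_cast h6
        · have h5 : ((⌊2 * δ + 2⌋₊ : ℕ) : ℝ) ≤ 2 * δ + 2 := Nat.floor_le (by linarith)
          have h6 := Nat.lt_floor_add_one (2 * δ + 2)
          have h7 : ((v.choose 2 : ℕ) : ℝ) / 2 ^ (k - 1) = 2 * δ := by
            rw [hδ]
            obtain ⟨l, rfl⟩ : ∃ l, k = l + 1 := ⟨k - 1, by omega⟩
            rw [Nat.add_sub_cancel, pow_succ]
            field_simp
          rw [h7, abs_le]
          constructor <;> linarith
        · have h5 : ((⌊2 * δ + 2⌋₊ : ℕ) : ℝ) ≤ 2 * δ + 2 := Nat.floor_le (by linarith)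
          have h6 := Nat.lt_floor_add_one (2 * δ + 2)
          rw [abs_lt]
          constructor <;> linarith
      · -- use `⌈4 δ - 2⌉`
        refine ⟨⌈4 * δ - 2⌉₊, ?_, ⟨k - 2, ?_⟩, ?_⟩
        · rw [Nat.ceil_le]
          linarith
        · have h5 : 4 * δ - 2 ≤ ((⌈4 * δ - 2⌉₊ : ℕ) : ℝ) := Nat.le_ceil _
          have h6 := Nat.ceil_lt_add_one (show (0 : ℝ) ≤ 4 * δ - 2 by linarith)
          have h7 : ((v.choose 2 : ℕ) : ℝ) / 2 ^ (k - 2) = 4 * δ := by
            rw [hδ]
            obtain ⟨l, rfl⟩ : ∃ l, k = l + 2 := ⟨k - 2, by omega⟩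
            rw [Nat.add_sub_cancel, pow_succ, pow_succ]
            field_simp
            norm_num
          rw [h7, abs_le]
          constructor <;> linarith
        · have h5 : 4 * δ - 2 ≤ ((⌈4 * δ - 2⌉₊ : ℕ) : ℝ) := Nat.le_ceil _
          have h6 := Nat.ceil_lt_add_one (show (0 : ℝ) ≤ 4 * δ - 2 by linarith)
          rw [abs_lt]
          constructor <;> linarith
    obtain ⟨r, hr, ⟨j, hj⟩, hlt2⟩ := hfind
    obtain ⟨H, hH1, hH2⟩ := exists_edgeDist K r hr
    have h3 := hK H ⟨j, by rw [hH1]; exact hj⟩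
    rw [hH2] at h3
    linarith
  · rintro H ⟨j, hj⟩
    have h1 := abs_le_edgeDist G H
    rw [hG] at h1
    refine le_trans ?_ h1
    rw [abs_le] at hj
    rcases gap hM0 hk j with h | h
    · rw [← hδ] at h
      rw [le_abs]
      left
      linarith
    · rw [← hδ] at h
      rw [le_abs]
      right
      linarith

lemma tendsto_choose_two : Filter.Tendsto (fun v : ℕ => ((v.choose 2 : ℕ) : ℝ)) Filter.atTop
    Filter.atTop := by
  apply tendsto_natCast_atTop_atTop.comp
  apply Filter.tendsto_atTop_mono (f := fun v : ℕ => v - 1) _ (Filter.tendsto_sub_atTop_nat 1)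
  intro v
  rcases Nat.lt_or_ge v 2 with h | h
  · interval_cases v <;> simp
  · rw [Nat.choose_two_right]
    rw [Nat.le_div_iff_mul_le (by norm_num), mul_comm v]
    exact Nat.mul_le_mul_left _ h

/-- **The dual problem of a graph property need not reduce to tolerant testing.** There is a graph
property `P` whose dual problem does not reduce to tolerant testing. Moreover, for every `k ≥ 2`,
with `δ = (v.choose 2) / 2 ^ k`, for every `α < 1` and all large `v` there are graphs which are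
`δ`-far from the graphs that are `δ`-far from `P v`, although their distance from `P v` exceeds
`α * δ`. -/
theorem result : ∃ P : ∀ v : ℕ, Set (SimpleGraph (Fin v)), IsGraphProperty P ∧
    ¬ DualReducesToTolerant P ∧
    ∀ k : ℕ, 2 ≤ k → ∀ α : ℝ, α < 1 → ∃ v₀ : ℕ, ∀ v ≥ v₀,
      ∃ G ∈ Far ((1 / 2) ^ k * (v.choose 2 : ℕ)) (Far ((1 / 2) ^ k * (v.choose 2 : ℕ)) (P v)),
        ∀ H ∈ P v, α * ((1 / 2) ^ k * (v.choose 2 : ℕ)) < (edgeDist G H : ℝ) := by
  have key : ∀ k : ℕ, 2 ≤ k → ∀ α : ℝ, α < 1 → ∃ v₀ : ℕ, ∀ v ≥ v₀,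
      ∃ G ∈ Far ((1 / 2) ^ k * (v.choose 2 : ℕ)) (Far ((1 / 2) ^ k * (v.choose 2 : ℕ)) (Pi v)),
        ∀ H ∈ Pi v, α * ((1 / 2) ^ k * (v.choose 2 : ℕ)) < (edgeDist G H : ℝ) := by
    intro k hk α hα
    have h1 := (tendsto_choose_two.const_mul_atTop
      (show (0 : ℝ) < (1 / 2) ^ k by positivity)).eventually_gt_atTop (max 4 (3 / (1 - α)))
    obtain ⟨v₀, hv₀⟩ := Filter.eventually_atTop.1 h1
    refine ⟨v₀, fun v hv => ?_⟩
    have h2 := hv₀ v hv
    rw [max_lt_iff] at h2
    set δ : ℝ := (1 / 2) ^ k * (v.choose 2 : ℕ) with hδ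
    have hδ' : δ = (v.choose 2 : ℕ) / 2 ^ k := by
      rw [hδ, one_div, inv_pow]
      field_simp
    obtain ⟨G, hG1, hG2⟩ := main hk hδ' h2.1.le
    refine ⟨G, hG1, fun H hH => lt_of_lt_of_le ?_ (hG2 H hH)⟩
    have h3 := h2.2
    rw [div_lt_iff₀ (by linarith)] at h3
    linarith
  refine ⟨Pi, pi_isGraphProperty, ?_, key⟩
  rintro ⟨ε₀, hε₀, h⟩
  obtain ⟨k, hk⟩ := exists_pow_lt_of_lt_one hε₀ (show (1 / 2 : ℝ) < 1 by norm_num)
  have hle : (1 / 2 : ℝ) ^ (k + 2) ≤ ε₀ := by
    refine le_trans ?_ hk.le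
    exact pow_le_pow_of_le_one (by norm_num) (by norm_num) (by omega)
  obtain ⟨α, hα, v₀, hv₀⟩ := h ((1 / 2) ^ (k + 2)) (by positivity) hle
  obtain ⟨v₁, hv₁⟩ := key (k + 2) (by omega) α hα
  obtain ⟨G, hG, hG2⟩ := hv₁ (max v₀ v₁) (le_max_right _ _)
  obtain ⟨H, hH, hH2⟩ := hv₀ (max v₀ v₁) (le_max_left _ _) G hG
  exact absurd hH2 (not_le.2 (hG2 H hH))

end Pool.Agent.Results.MP_cccbef_lc.DualNotTolerant
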